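import Mathlib
import Pool.Agent.Run7.h662.SplineDefs
import Pool.Agent.Run7.h662.ChainLocal

/-!
# `k_0(s, r) ≥ s r + 1`

For `s ≥ 1` and `k ≤ s r` the spline spaces `S_k^r(Δ)` in `ℝ^s` have no local bases: no `m` works
for all triangulations.  Consequently every `K` such that local bases exist for all `k ≥ K`
satisfies `K ≥ s r + 1`.
-/

namespace Pool.Agent.Results.MP_426dd2_an.LowerBound

open Run7.h662

/-- For every `s ≥ 1`, `r ≥ 0` and `k ≤ s r`, and every `m`, there is a triangulation `Δ` of a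
region in `ℝ^s` such that `S_k^r(Δ)` has no basis consisting of splines supported in `m`-stars of
vertices; so if the spaces `S_k^r(Δ)` have local bases for all `k ≥ K`, then `K ≥ s r + 1`. -/
theorem result (s r : ℕ) (hs : 1 ≤ s) :
    (∀ k ≤ s * r, ∀ m : ℕ, ∃ Δ : Triangulation s, ¬ Δ.HasBasisInStars k r m) ∧
      (∀ K : ℕ, (∀ k, K ≤ k → HaveLocalBases s k r) → s * r + 1 ≤ K) := by
  have : NeZero s := ⟨by omega⟩
  have h1 : ∀ k ≤ s * r, ∀ m : ℕ, ∃ Δ : Triangulation s, ¬ Δ.HasBasisInStars k r m := by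
    intro k hk m
    obtain ⟨N, hN⟩ := chain_not_local (s := s) m k r hk
    exact ⟨chain s N, hN⟩
  refine ⟨h1, fun K hK => ?_⟩
  by_contra hlt
  obtain ⟨m, -, hm⟩ := hK (s * r) (by omega)
  obtain ⟨Δ, hΔ⟩ := h1 (s * r) le_rfl m
  exact hΔ (hm Δ)

end Pool.Agent.Results.MP_426dd2_an.LowerBound
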